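import Pool.Agent.N145.PL.Stm
import Pool.Agent.N145.PC.Dual
import Pool.Agent.W619.PQ.Norm
import Pool.Agent.W619.PQ.Local

/-!
Curves without logarithmic differentials (project LG, helper145).
-/

set_option autoImplicit false
set_option linter.overlappingInstances false
set_option linter.unusedSectionVars false

open Polynomial FF IsDedekindDomain IntermediateField

namespace Pool.Agent.N75.LG

open Pool.Agent.W603.LV Pool.Agent.W619.PQ Pool.Agent.N145.PC Pool.Agent.N145.PL

section

variable {k E F : Type} [Field k] [Field E] [Field F] [Algebra k E] [Algebra k F] [Algebra E F]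
  [IsScalarTower k E F] [CharZero k] [IsAlgClosed k] [IsFF k E] [IsFF k F] [FiniteDimensional E F]

theorem exists_below (Q : Place k F) : ∃ (P : Place k E) (e : ℕ), Over Q P e := by
  have h : ∃ f : E, Q.ord (algebraMap E F f) ≠ 0 := by
    by_contra hcon
    push Not at hcon
    have h2 := ord_eq_zero_of_alg (k := k) (K0 := E) (K1 := F) (K2 := F) Q hcon
    obtain ⟨t, -, ht⟩ := Q.surj
    have h3 := h2 t
    rw [Algebra.algebraMap_self_apply, ht] at h3
    omega
  obtain ⟨e, P, hP⟩ := exists_over (K := E) Q h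
  exact ⟨P, e, hP⟩

/-- the key computation -/
theorem trace_ne {D : Derivation k F F} {DE : Derivation k E E} (hDE0 : DE ≠ 0) (hD0 : D ≠ 0)
    (hext : ∀ z : E, D (algebraMap E F z) = algebraMap E F (DE z))
    {P P' : Place k F} {p p' : Place k E} {e e' : ℕ} (hP : Over P p e) (hP' : Over P' p' e')
    (hne : p ≠ p') {g : F} (hg : ∀ w : Place k F, w ≠ P → w ≠ P' → Ge w (vo w D) g)
    (hgP : Ge P (vo P D - 1) g) (hbad : ¬ Ge P (vo P D) g) : Algebra.trace E F g ≠ 0 := by
  classical
  intro htr
  obtain ⟨σ, hσ0, hσ⟩ := p.surj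
  have hσF : algebraMap E F σ ≠ 0 := (_root_.map_ne_zero _).2 hσ0
  obtain ⟨v, hv⟩ : ∃ v, v = vo p DE := ⟨_, rfl⟩
  have hg0 : g ≠ 0 := fun h => hbad (Or.inl h)
  have hordg : P.ord g = vo P D - 1 := by
    have h1 := hgP.resolve_left hg0
    by_contra h2
    exact hbad (Or.inr (by omega))
  have hvo : ∀ (w : Place k F) (a : ℕ), Over w p a → vo w D = a * v - a + 1 := by
    intro w a h
    rw [hv]
    exact vo_over h hDE0 hD0 hext
  have hwσ : ∀ (w : Place k F) (a : ℕ), Over w p a → w.ord (algebraMap E F σ) = a := by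
    intro w a h
    rw [h.2, hσ, mul_one]
  obtain ⟨τ, hτ⟩ : ∃ τ : E, τ = σ ^ (1 - v) := ⟨_, rfl⟩
  have hτ0 : τ ≠ 0 := by
    rw [hτ]
    exact zpow_ne_zero _ hσ0
  have hτF : algebraMap E F τ ≠ 0 := (_root_.map_ne_zero _).2 hτ0
  have hordτ : ∀ (w : Place k F) (a : ℕ), Over w p a →
      w.ord (algebraMap E F τ) = a * (1 - v) := by
    intro w a h
    rw [h.2, hτ, p.ord_zpow, hσ, mul_one]
  obtain ⟨z, hz⟩ : ∃ z, z = g * algebraMap E F τ := ⟨_, rfl⟩
  have hz0 : z ≠ 0 := by
    rw [hz]
    exact mul_ne_zero hg0 hτF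
  have hordz : P.ord z = 0 := by
    rw [hz, P.ord_mul hg0 hτF, hordg, hordτ P e hP, hvo P e hP]
    ring
  have hzw : ∀ (w : Place k F) (a : ℕ), Over w p a → w ≠ P → Ge w 1 z := by
    intro w a h hwP
    have hwP' : w ≠ P' := by
      rintro rfl
      exact hne (over_unique' h hP').1
    have h1 := hg w hwP hwP'
    have h2 : Ge w (a * (1 - v)) (algebraMap E F τ) := Or.inr (hordτ w a h).ge
    rw [hz]
    refine (h1.mul h2).mono ?_
    rw [hvo w a h]
    apply le_of_eq
    ring
  obtain ⟨c, hc⟩ := exists_const P (f := z) (Or.inr hordz.ge)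
  have hc0 : c ≠ 0 := by
    rintro rfl
    rw [map_zero, sub_zero] at hc
    have h1 := hc.resolve_left hz0
    omega
  -- the places over `p`
  have hfs := finite_support (k := k) (algebraMap E F σ)
  obtain ⟨Z, hZ⟩ : ∃ Z : Finset (Place k F), ∀ w, w ∈ Z ↔ w.ord (algebraMap E F σ) ≠ 0 :=
    ⟨hfs.toFinset, fun w => hfs.mem_toFinset⟩
  have hZm : ∀ (w : Place k F) (a : ℕ), Over w p a → w ∈ Z := by
    intro w a h
    rw [hZ, hwσ w a h]
    have := h.1
    omega
  obtain ⟨N, hN⟩ : ∃ N : ℕ, N = 1 + ∑ w ∈ Z, (w.ord (algebraMap E F σ)).natAbs := ⟨_, rfl⟩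
  have hN1 : 1 ≤ N := by omega
  have hNa : ∀ (w : Place k F) (a : ℕ), Over w p a → a ≤ N := by
    intro w a h
    have h1 := hwσ w a h
    have h4 := Finset.single_le_sum
      (f := fun w : Place k F => (w.ord (algebraMap E F σ)).natAbs)
      (fun _ _ => Nat.zero_le _) (hZm w a h)
    have h5 : (w.ord (algebraMap E F σ)).natAbs ≤
      ∑ w ∈ Z, (w.ord (algebraMap E F σ)).natAbs := h4
    omega
  obtain ⟨y, hy1, hy2⟩ := approx_one (Z.erase P) P (by simp) 1 (N : ℤ)
  have hyP0 : Ge P 0 y := by
    have h1 := (hy1.mono (by omega : (0 : ℤ) ≤ N)).add (Ge.one (P := P))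
    simpa using h1
  have hyw : ∀ (w : Place k F) (a : ℕ), Over w p a → w ≠ P → Ge w N y := by
    intro w a h hwP
    exact hy2 w (Finset.mem_erase.2 ⟨hwP, hZm w a h⟩)
  have hunit : ¬ Ge p 1 (Algebra.trace E F y) := by
    refine trace_unit p y ?_ ?_ P e hP (hy1.mono (by omega))
    · intro w a h
      have e1 : y ^ 2 - y = y * (y - 1) := by ring
      have h4 := hNa w a h
      rw [e1]
      by_cases hwP : w = P
      · subst hwP
        exact (hyP0.mul hy1).mono (by omega)
      · have h5 := hyw w a h hwP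
        have h6 : Ge w 0 (y - 1) := (h5.mono (by omega)).sub Ge.one
        exact (h5.mul h6).mono (by omega)
    · intro w a h
      by_cases hwP : w = P
      · rw [hwP]
        exact hyP0
      · exact (hyw w a h hwP).mono (by omega)
  have hnil : Ge p 1 (Algebra.trace E F (z - algebraMap k F c * y)) := by
    refine trace_nil p _ N hNa ?_
    intro w a h
    by_cases hwP : w = P
    · subst hwP
      have e1 : z - algebraMap k F c * y = (z - algebraMap k F c) -
          algebraMap k F c * (y - 1) := by ring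
      rw [e1]
      refine hc.sub ?_
      exact ((Ge.const (P := w) c).mul hy1).mono (by omega)
    · refine (hzw w a h hwP).sub ?_
      exact ((Ge.const (P := w) c).mul (hyw w a h hwP)).mono (by omega)
  have htz : Algebra.trace E F z = 0 := by
    have h1 : z = τ • g := by
      rw [hz, Algebra.smul_def, mul_comm]
    rw [h1, map_smul, htr, smul_zero]
  have htcy : Algebra.trace E F (algebraMap k F c * y) =
      algebraMap k E c * Algebra.trace E F y := by
    have h1 : algebraMap k F c * y = algebraMap k E c • y := by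
      rw [Algebra.smul_def, ← IsScalarTower.algebraMap_apply]
    rw [h1, map_smul, smul_eq_mul]
  rw [map_sub, htz, htcy, zero_sub] at hnil
  apply hunit
  have hcE : algebraMap k E c ≠ 0 := by simpa using hc0
  refine Ge.of_mul' (h := algebraMap k E c) (m := 0) hcE (p.ord_const hc0) ?_
  have h1 := hnil.neg
  rw [neg_neg] at h1
  simpa using h1

end

theorem CURVE : S_THIRD → S_CURVE := by
  classical
  intro hthird k E F _ _ _ _ _ _ _ _ _ _ _ _ D ξ hD B htr
  have hD0 : D ≠ 0 := by
    intro h
    rw [h] at hD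
    exact zero_ne_one hD
  have hξ : Transcendental k ξ := by
    intro halg
    have hint := halg.isIntegral
    have hdeg := IsAlgClosed.degree_eq_one_of_irreducible k (minpoly.irreducible hint)
    obtain ⟨c, hc⟩ := minpoly.mem_range_of_degree_eq_one k ξ hdeg
    rw [← hc, ← IsScalarTower.algebraMap_apply, Derivation.map_algebraMap] at hD
    exact zero_ne_one hD
  have hξF : Transcendental k (algebraMap E F ξ) := transcendental_map hξ
  have hd0 := der_ne (k := k) (K := E)
  have hd1 := der_ne_zero hd0 hξ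
  obtain ⟨DE, hDE⟩ : ∃ DE : Derivation k E E, DE = (der k E ξ)⁻¹ • der k E := ⟨_, rfl⟩
  have hDE1 : DE ξ = 1 := by
    rw [hDE, Derivation.smul_apply, smul_eq_mul, inv_mul_cancel₀ hd1]
  have hDE0 : DE ≠ 0 := by
    intro h
    rw [h] at hDE1
    exact zero_ne_one hDE1
  obtain ⟨D2, hD2, hext2⟩ := exists_ext (E := F) DE hDE0
  have hDD : ∀ z : F, D2 z = D z := by
    refine der_ext hξF ?_
    have h1 := hext2 ξ
    rw [hDE1, map_one] at h1
    rw [hD]
    exact h1
  have hext : ∀ z : E, D (algebraMap E F z) = algebraMap E F (DE z) := fun z => by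
    rw [← hDD, hext2]
  have hbd : ∀ P : Place k F, 0 ≤ bd B P := by
    intro P
    unfold bd
    split_ifs <;> norm_num
  -- `E` is rational
  have hrat : ∃ t : E, k⟮t⟯ = ⊤ := by
    by_contra hrat
    obtain ⟨f, hf0, hf⟩ := exists_regular (k := k) (F := E) hrat hDE0
    have hmem : algebraMap E F f ∈ HL D B := by
      intro Q
      obtain ⟨q, e, hq⟩ := exists_below (E := E) Q
      have h1 := vo_over hq hDE0 hD0 hext
      have h2 := hf q
      have h3 : Q.ord (algebraMap E F f) = e * q.ord f := hq.2 f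
      have h4 : (1 : ℤ) ≤ e := by exact_mod_cast hq.1
      have h5 := mul_le_mul_of_nonneg_left h2 (by omega : (0 : ℤ) ≤ e)
      have h6 := hbd Q
      right
      rw [h1, h3]
      linarith
    have h1 := htr _ hmem
    rw [Algebra.trace_algebraMap, nsmul_eq_mul] at h1
    have hE0 : CharZero E := charZero_of_injective_algebraMap (algebraMap k E).injective
    rcases mul_eq_zero.1 h1 with h2 | h2
    · have h3 : 0 < Module.finrank E F := Module.finrank_pos
      have h4 : (Module.finrank E F : E) ≠ 0 := by exact_mod_cast h3.ne'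
      exact h4 h2
    · exact hf0 h2
  obtain ⟨t, ht⟩ := hrat
  rcases B.eq_empty_or_nonempty with hB | ⟨Q₁, hQ₁⟩
  · refine ⟨t, ht, fun Q hQ => ?_⟩
    rw [hB] at hQ
    exact absurd hQ (Set.notMem_empty Q)
  obtain ⟨q₁, e₁, hq₁⟩ := exists_below (E := E) Q₁
  -- all the places of `B` are over `q₁`
  have hover : ∀ Q₂ ∈ B, ∃ e₂, Over Q₂ q₁ e₂ := by
    intro Q₂ hQ₂
    obtain ⟨q₂, e₂, hq₂⟩ := exists_below (E := E) Q₂
    by_cases hqq : q₁ = q₂
    · exact ⟨e₂, hqq ▸ hq₂⟩
    exfalso
    have hQQ : Q₁ ≠ Q₂ := by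
      rintro rfl
      exact hqq (over_unique' hq₁ hq₂).1
    obtain ⟨g, hg, Q, hQ⟩ := hthird k F D hD0 Q₁ Q₂ hQQ
    have hgB : g ∈ HL D B := by
      intro P
      refine (hg P).mono ?_
      have h1 : bd {Q₁, Q₂} P ≤ bd B P := by
        by_cases h2 : P ∈ ({Q₁, Q₂} : Set (Place k F))
        · have h3 : P ∈ B := by
            rcases h2 with h2 | h2
            · rw [h2]
              exact hQ₁
            · rw [Set.mem_singleton_iff.1 h2]
              exact hQ₂
          unfold bd
          rw [if_pos h2, if_pos h3]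
        · have h4 : bd {Q₁, Q₂} P = 0 := by
            unfold bd
            rw [if_neg h2]
          rw [h4]
          exact hbd P
      omega
    have hg1 : ∀ w : Place k F, w ≠ Q₁ → w ≠ Q₂ → Ge w (vo w D) g := by
      intro w h1 h2
      have h3 := hg w
      have h4 : bd {Q₁, Q₂} w = 0 := by
        unfold bd
        rw [if_neg]
        rintro (h5 | h5)
        · exact h1 h5
        · exact h2 h5
      rwa [h4, sub_zero] at h3
    have hg2 : ∀ w : Place k F, Ge w (vo w D - 1) g := by
      intro w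
      refine (hg w).mono ?_
      have : bd {Q₁, Q₂} w ≤ 1 := by
        unfold bd
        split_ifs <;> norm_num
      omega
    by_cases h1 : Q = Q₁
    · rw [h1] at hQ
      exact trace_ne hDE0 hD0 hext hq₁ hq₂ hqq hg1 (hg2 Q₁) hQ (htr g hgB)
    · by_cases h2 : Q = Q₂
      · rw [h2] at hQ
        exact trace_ne hDE0 hD0 hext hq₂ hq₁ (Ne.symm hqq) (fun w a b => hg1 w b a) (hg2 Q₂) hQ
          (htr g hgB)
      · exact hQ (hg1 Q h1 h2)
  -- the coordinate
  have hs : ∃ s : E, k⟮s⟯ = ⊤ ∧ q₁.ord s < 0 := by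
    by_cases hqt : q₁.ord t < 0
    · exact ⟨t, ht, hqt⟩
    · push Not at hqt
      obtain ⟨a, ha⟩ := exists_const q₁ (f := t) (Or.inr hqt)
      have hta : t - algebraMap k E a ≠ 0 := by
        intro h
        have h1 : t = algebraMap k E a := sub_eq_zero.1 h
        apply hξ
        have h2 : ξ ∈ (⊤ : IntermediateField k E) := IntermediateField.mem_top
        rw [← ht, h1] at h2
        have h3 : k⟮algebraMap k E a⟯ = ⊥ :=
          IntermediateField.adjoin_simple_eq_bot_iff.2 (IntermediateField.algebraMap_mem _ a)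
        rw [h3, IntermediateField.mem_bot] at h2
        obtain ⟨b, hb⟩ := h2
        rw [← hb]
        exact isAlgebraic_algebraMap b
      have h1 := ha.resolve_left hta
      refine ⟨(t - algebraMap k E a)⁻¹, ?_, ?_⟩
      · rw [eq_top_iff, ← ht, IntermediateField.adjoin_simple_le_iff]
        have h2 : (t - algebraMap k E a)⁻¹ ∈ k⟮(t - algebraMap k E a)⁻¹⟯ :=
          IntermediateField.mem_adjoin_simple_self k _
        have h3 := inv_mem h2
        rw [inv_inv] at h3
        have h4 := add_mem h3 (IntermediateField.algebraMap_mem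
          (k⟮(t - algebraMap k E a)⁻¹⟯) a)
        rwa [sub_add_cancel] at h4
      · rw [q₁.ord_inv]
        omega
  obtain ⟨s, hs1, hs2⟩ := hs
  refine ⟨s, hs1, fun Q hQ => ?_⟩
  obtain ⟨e, he⟩ := hover Q hQ
  rw [he.2]
  exact mul_neg_of_pos_of_neg (by exact_mod_cast he.1) hs2

end Pool.Agent.N75.LG
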